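import Mathlib

/-!
# The Legendre-symbol determinant `D_p^{(m)}` modulo `p`

Reducing modulo `p` and using Euler's criterion, the matrix of `D_p^{(m)}` becomes
`((x_j - x_k) ^ (m + n))` with `n = (p - 1) / 2` and `x_j = j ^ 2`.  Since `x_j ^ n = 1`, it is
a product of two Vandermonde matrices and diagonal matrices.
-/

namespace Pool.Agent.Helper98.LegendreDet

open Finset

/-- The determinant `D_p^{(m)}` of the matrix
`((j ^ 2 - k ^ 2) ^ m * (j ^ 2 - k ^ 2 | p))`, `1 ≤ j, k ≤ (p - 1) / 2`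
(indices are shifted by one: `Fin ((p - 1) / 2)` starts at `0`). -/
def legendreDet (m p : ℕ) [Fact p.Prime] : ℤ :=
  Matrix.det (Matrix.of fun j k : Fin ((p - 1) / 2) =>
    ((((j : ℕ) : ℤ) + 1) ^ 2 - (((k : ℕ) : ℤ) + 1) ^ 2) ^ m *
      legendreSym p ((((j : ℕ) : ℤ) + 1) ^ 2 - (((k : ℕ) : ℤ) + 1) ^ 2))

/-- The set `E(m)` of the primes `p ≡ 1 (mod 4)` which divide `D_p^{(m)}`. -/
def excSet (m : ℕ) : Set ℕ :=
  {p | ∃ h : p.Prime, p % 4 = 1 ∧ (p : ℤ) ∣ @legendreDet m p ⟨h⟩}

/-- The coefficients of the reduction. -/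
def coef (m n r : ℕ) : ℤ :=
  ∑ i ∈ (range (m + n + 1)).filter (fun i => i % n = r), (-1) ^ (m + n - i) * ((m + n).choose i : ℤ)

section reduction

variable {p : ℕ} [Fact p.Prime]

/-- The squares `1, 4, 9, ...` modulo `p`. -/
def xx (p : ℕ) (j : Fin ((p - 1) / 2)) : ZMod p := (((j : ℕ) : ZMod p) + 1) ^ 2

lemma succ_ne_zero (j : Fin ((p - 1) / 2)) : (((j : ℕ) : ZMod p) + 1) ≠ 0 := by
  have hj := j.2
  have h : ((((j : ℕ) + 1 : ℕ)) : ZMod p) ≠ 0 := by
    rw [Ne, ZMod.natCast_eq_zero_iff]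
    intro hd
    have := Nat.le_of_dvd (by omega) hd
    omega
  simpa using h

lemma xx_ne_zero (j : Fin ((p - 1) / 2)) : xx p j ≠ 0 := pow_ne_zero _ (succ_ne_zero j)

lemma xx_pow (hp : p ≠ 2) (j : Fin ((p - 1) / 2)) : xx p j ^ ((p - 1) / 2) = 1 := by
  have hodd : p % 2 = 1 := (Fact.out : p.Prime).eq_two_or_odd.resolve_left hp
  unfold xx
  rw [← pow_mul, show 2 * ((p - 1) / 2) = p - 1 by omega]
  exact ZMod.pow_card_sub_one_eq_one (succ_ne_zero j)

lemma xx_injective : Function.Injective (xx p) := by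
  intro j k h
  have hj := j.2
  have hk := k.2
  unfold xx at h
  have hfac : ((((j : ℕ) : ZMod p) + 1) - (((k : ℕ) : ZMod p) + 1)) *
      ((((j : ℕ) : ZMod p) + 1) + (((k : ℕ) : ZMod p) + 1)) = 0 := by
    linear_combination h
  rcases mul_eq_zero.mp hfac with h0 | h0
  · have h1 : ((j : ℕ) : ZMod p) = ((k : ℕ) : ZMod p) := by linear_combination h0
    rw [ZMod.natCast_eq_natCast_iff'] at h1
    rw [Nat.mod_eq_of_lt (by omega), Nat.mod_eq_of_lt (by omega)] at h1
    exact Fin.ext h1
  · exfalso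
    have h1 : (((j : ℕ) + 1 + ((k : ℕ) + 1) : ℕ) : ZMod p) = 0 := by
      push_cast
      exact h0
    rw [ZMod.natCast_eq_zero_iff] at h1
    have := Nat.le_of_dvd (by omega) h1
    omega

lemma sum_pow_mod {n N : ℕ} (hn : 0 < n) (a : ℕ → ZMod p) {z : ZMod p} (hz : z ^ n = 1) :
    ∑ i ∈ range N, a i * z ^ i =
      ∑ r : Fin n, (∑ i ∈ (range N).filter (fun i => i % n = r), a i) * z ^ (r : ℕ) := by
  rw [← Finset.sum_range (fun r => (∑ i ∈ (range N).filter (fun i => i % n = r), a i) * z ^ r)]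
  rw [← Finset.sum_fiberwise_of_maps_to (s := range N) (t := range n) (g := fun i => i % n)
    (fun i _ => Finset.mem_range.mpr (Nat.mod_lt _ hn))]
  refine Finset.sum_congr rfl fun r _ => ?_
  rw [Finset.sum_mul]
  refine Finset.sum_congr rfl fun i hi => ?_
  rw [Finset.mem_filter] at hi
  rw [← hi.2]
  congr 1
  conv_lhs => rw [← Nat.div_add_mod i n, pow_add, pow_mul, hz, one_pow, one_mul]

lemma entry_eq (hp : p ≠ 2) (m : ℕ) (j k : Fin ((p - 1) / 2)) :
    (xx p j - xx p k) ^ (m + (p - 1) / 2) =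
      ∑ r : Fin ((p - 1) / 2), xx p j ^ (r : ℕ) * ((coef m ((p - 1) / 2) r : ℤ) : ZMod p) *
        (xx p k)⁻¹ ^ (r : ℕ) * xx p k ^ m := by
  have hn0 : 0 < (p - 1) / 2 := by
    have := j.2
    omega
  have hk0 : xx p k ≠ 0 := xx_ne_zero k
  have hz : (xx p j * (xx p k)⁻¹) ^ ((p - 1) / 2) = 1 := by
    rw [mul_pow, inv_pow, xx_pow hp, xx_pow hp]; simp
  have h1 : (xx p j - xx p k) ^ (m + (p - 1) / 2) = (∑ i ∈ range (m + (p - 1) / 2 + 1),
      ((-1) ^ (m + (p - 1) / 2 - i) * (((m + (p - 1) / 2).choose i : ℕ) : ZMod p)) *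
        (xx p j * (xx p k)⁻¹) ^ i) * xx p k ^ m := by
    rw [sub_eq_add_neg, add_pow, Finset.sum_mul]
    refine Finset.sum_congr rfl fun i hi => ?_
    have hi' : i ≤ m + (p - 1) / 2 := by
      rw [Finset.mem_range] at hi; omega
    have h2 : xx p k ^ (m + (p - 1) / 2 - i) = (xx p k)⁻¹ ^ i * xx p k ^ m := by
      have h3 : xx p k ^ (m + (p - 1) / 2 - i) * xx p k ^ i = xx p k ^ m := by
        rw [← pow_add, Nat.sub_add_cancel hi', pow_add, xx_pow hp, mul_one]
      rw [← h3, mul_comm, mul_assoc, ← mul_pow, mul_inv_cancel₀ hk0, one_pow, mul_one]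
    rw [neg_pow, h2, mul_pow]
    ring
  rw [h1, sum_pow_mod hn0 _ hz, Finset.sum_mul]
  refine Finset.sum_congr rfl fun r _ => ?_
  unfold coef
  push_cast
  rw [mul_pow]
  ring

/-- `p` divides `D_p^{(m)}` if and only if it divides one of the coefficients. -/
lemma dvd_legendreDet_iff (hp : p ≠ 2) (m : ℕ) :
    (p : ℤ) ∣ legendreDet m p ↔ ∃ r < (p - 1) / 2, (p : ℤ) ∣ coef m ((p - 1) / 2) r := by
  have hodd : p % 2 = 1 := (Fact.out : p.Prime).eq_two_or_odd.resolve_left hp
  set n := (p - 1) / 2 with hn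
  have hcast : ((legendreDet m p : ℤ) : ZMod p) =
      Matrix.det (Matrix.vandermonde (xx p) *
        Matrix.diagonal (fun r : Fin n => ((coef m n r : ℤ) : ZMod p)) *
        (Matrix.vandermonde (fun k => (xx p k)⁻¹)).transpose *
        Matrix.diagonal (fun k : Fin n => xx p k ^ m)) := by
    unfold legendreDet
    rw [Int.cast_det]
    congr 1
    ext j k
    rw [Matrix.mul_diagonal, Matrix.mul_apply, Matrix.map_apply, Matrix.of_apply]
    push_cast
    rw [legendreSym.eq_pow, show p / 2 = n by omega]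
    push_cast
    rw [← pow_add]
    have := entry_eq (p := p) hp m j k
    unfold xx at this ⊢
    rw [this, Finset.sum_mul]
    refine Finset.sum_congr rfl fun r _ => ?_
    rw [Matrix.mul_diagonal, Matrix.vandermonde_apply, Matrix.transpose_apply,
      Matrix.vandermonde_apply]
  rw [← ZMod.intCast_zmod_eq_zero_iff_dvd, hcast, Matrix.det_mul, Matrix.det_mul, Matrix.det_mul,
    Matrix.det_transpose, Matrix.det_diagonal, Matrix.det_diagonal]
  have hV1 : (Matrix.vandermonde (xx p)).det ≠ 0 :=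
    Matrix.det_vandermonde_ne_zero_iff.mpr xx_injective
  have hV2 : (Matrix.vandermonde (fun k => (xx p k)⁻¹)).det ≠ 0 :=
    Matrix.det_vandermonde_ne_zero_iff.mpr (fun j k h => xx_injective (inv_injective h))
  have hP : ∏ k : Fin n, xx p k ^ m ≠ 0 :=
    Finset.prod_ne_zero_iff.mpr fun k _ => pow_ne_zero _ (xx_ne_zero k)
  rw [mul_eq_zero, mul_eq_zero, mul_eq_zero]
  constructor
  · rintro (((h | h) | h) | h)
    · exact absurd h hV1
    · obtain ⟨r, -, hr⟩ := Finset.prod_eq_zero_iff.mp h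
      exact ⟨r, r.2, (ZMod.intCast_zmod_eq_zero_iff_dvd _ _).mp hr⟩
    · exact absurd h hV2
    · exact absurd h hP
  · rintro ⟨r, hr, hd⟩
    left; left; right
    exact Finset.prod_eq_zero (Finset.mem_univ (⟨r, hr⟩ : Fin n))
      ((ZMod.intCast_zmod_eq_zero_iff_dvd _ _).mpr hd)

end reduction

/-! ## Large primes -/

/-- `∏_{i < r} (2 m - 1 - 2 i)`. -/
def oddProd (m r : ℕ) : ℕ := ∏ i ∈ range r, (2 * m - 1 - 2 * i)

/-- The integer `2 ^ m * m! * (C(m - 1/2, r) + C(m - 1/2, m - r))`. -/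
def num (m r : ℕ) : ℕ :=
  2 ^ (m - r) * m.descFactorial (m - r) * oddProd m r + 2 ^ r * m.descFactorial r * oddProd m (m - r)

lemma num_pos {m r : ℕ} (hr : r ≤ m) : 0 < num m r := by
  have h1 : 0 < m.descFactorial (m - r) :=
    Nat.pos_of_ne_zero (by rw [Ne, Nat.descFactorial_eq_zero_iff_lt]; omega)
  have h2 : 0 < oddProd m r := by
    apply Finset.prod_pos
    intro i hi
    rw [Finset.mem_range] at hi
    omega
  unfold num
  positivity

lemma coef_of_lt {m n r : ℕ} (hmn : m < n) (hn : Even n) (hr : r ≤ m) :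
    coef m n r = (-1) ^ (m - r) * (((m + n).choose r : ℤ) + ((m + n).choose (m - r) : ℤ)) := by
  have hset : (range (m + n + 1)).filter (fun i => i % n = r) = {r, r + n} := by
    ext i
    simp only [Finset.mem_filter, Finset.mem_range, Finset.mem_insert, Finset.mem_singleton]
    constructor
    · rintro ⟨h1, h2⟩
      rcases Nat.lt_or_ge i n with h3 | h3
      · rw [Nat.mod_eq_of_lt h3] at h2; left; exact h2
      · right
        have h4 : i % n = i - n := by
          rw [Nat.mod_eq_sub_mod h3, Nat.mod_eq_of_lt (by omega)]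
        omega
    · rintro (rfl | rfl)
      · exact ⟨by omega, Nat.mod_eq_of_lt (by omega)⟩
      · exact ⟨by omega, by rw [Nat.add_mod_right, Nat.mod_eq_of_lt (by omega)]⟩
  unfold coef
  rw [hset, Finset.sum_pair (by omega)]
  have e1 : ((-1 : ℤ)) ^ (m + n - r) = (-1) ^ (m - r) := by
    rw [show m + n - r = (m - r) + n by omega, pow_add, hn.neg_one_pow, mul_one]
  have e2 : m + n - (r + n) = m - r := by omega
  have e3 : (m + n).choose (r + n) = (m + n).choose (m - r) := by
    rw [← Nat.choose_symm (by omega : m - r ≤ m + n)]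
    congr 1
    omega
  rw [e1, e2, e3]
  ring

lemma coef_of_gt {m n r : ℕ} (hr : m < r) (hrn : r < n) :
    coef m n r = (-1) ^ (m + n - r) * ((m + n).choose r : ℤ) := by
  have hset : (range (m + n + 1)).filter (fun i => i % n = r) = {r} := by
    ext i
    simp only [Finset.mem_filter, Finset.mem_range, Finset.mem_singleton]
    constructor
    · rintro ⟨h1, h2⟩
      rcases Nat.lt_or_ge i n with h3 | h3
      · rw [Nat.mod_eq_of_lt h3] at h2; exact h2
      · exfalso
        have h4 : i % n = i - n := by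
          rw [Nat.mod_eq_sub_mod h3, Nat.mod_eq_of_lt (by omega)]
        omega
    · rintro rfl
      exact ⟨by omega, Nat.mod_eq_of_lt (by omega)⟩
  unfold coef
  rw [hset, Finset.sum_singleton]

lemma choose_mod {p : ℕ} [Fact p.Prime] (hodd : p % 2 = 1) {m r : ℕ} (hr : r ≤ m) :
    ((2 ^ r * r.factorial * (m + (p - 1) / 2).choose r : ℕ) : ZMod p) =
      ((oddProd m r : ℕ) : ZMod p) := by
  set n := (p - 1) / 2 with hn
  have h2n : (2 : ZMod p) * (n : ZMod p) + 1 = 0 := by
    have : ((2 * n + 1 : ℕ) : ZMod p) = 0 := by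
      rw [show 2 * n + 1 = p by omega]; exact ZMod.natCast_self p
    push_cast at this
    exact this
  rw [mul_assoc, ← Nat.descFactorial_eq_factorial_mul_choose, Nat.descFactorial_eq_prod_range]
  unfold oddProd
  push_cast
  have hpow : (2 : ZMod p) ^ r = ∏ _i ∈ range r, (2 : ZMod p) := by simp
  rw [hpow, ← Finset.prod_mul_distrib]
  refine Finset.prod_congr rfl fun i hi => ?_
  rw [Finset.mem_range] at hi
  rw [Nat.cast_sub (by omega : i ≤ m + n), Nat.cast_sub (by omega : 2 * i ≤ 2 * m - 1),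
    Nat.cast_sub (by omega : 1 ≤ 2 * m)]
  push_cast
  linear_combination h2n

lemma dvd_sum_choose_iff {p : ℕ} [Fact p.Prime] (hodd : p % 2 = 1) {m r : ℕ} (hmp : m < p)
    (hr : r ≤ m) :
    (p : ℤ) ∣ (((m + (p - 1) / 2).choose r : ℤ) + ((m + (p - 1) / 2).choose (m - r) : ℤ)) ↔
      p ∣ num m r := by
  have hp : p.Prime := Fact.out
  set n := (p - 1) / 2 with hn
  have hkey : ((2 ^ m * m.factorial : ℕ) : ZMod p) *
      ((((m + n).choose r : ℤ) + ((m + n).choose (m - r) : ℤ) : ℤ) : ZMod p) =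
      ((num m r : ℕ) : ZMod p) := by
    have h1 := choose_mod (p := p) hodd hr
    have h2 := choose_mod (p := p) hodd (Nat.sub_le m r)
    have f1 : r.factorial * m.descFactorial (m - r) = m.factorial := by
      have := Nat.factorial_mul_descFactorial (Nat.sub_le m r)
      rwa [Nat.sub_sub_self hr] at this
    have f2 : (m - r).factorial * m.descFactorial r = m.factorial :=
      Nat.factorial_mul_descFactorial hr
    have g1 : ((r.factorial : ℕ) : ZMod p) * ((m.descFactorial (m - r) : ℕ) : ZMod p) =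
        ((m.factorial : ℕ) : ZMod p) := by rw [← f1]; push_cast; ring
    have g2 : (((m - r).factorial : ℕ) : ZMod p) * ((m.descFactorial r : ℕ) : ZMod p) =
        ((m.factorial : ℕ) : ZMod p) := by rw [← f2]; push_cast; ring
    have g3 : (2 : ZMod p) ^ m = 2 ^ (m - r) * 2 ^ r := by
      rw [← pow_add]; congr 1; omega
    unfold num
    push_cast at h1 h2 ⊢
    rw [← h1, ← h2, ← hn]
    linear_combination
      (-(2 ^ m * ((m + n).choose r : ZMod p)) : ZMod p) * g1 -
      (2 ^ m * ((m + n).choose (m - r) : ZMod p)) * g2 +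
      ((r.factorial : ZMod p) * (m.descFactorial (m - r) : ZMod p) * ((m + n).choose r : ZMod p) +
       ((m - r).factorial : ZMod p) * (m.descFactorial r : ZMod p) *
        ((m + n).choose (m - r) : ZMod p)) * g3
  have hunit : ((2 ^ m * m.factorial : ℕ) : ZMod p) ≠ 0 := by
    rw [Ne, ZMod.natCast_eq_zero_iff]
    intro hd
    rcases (Nat.Prime.dvd_mul hp).mp hd with h | h
    · have := Nat.Prime.dvd_of_dvd_pow hp h
      have := Nat.le_of_dvd (by norm_num) this
      have := hp.two_le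
      have : p = 2 := by omega
      omega
    · have := (Nat.Prime.dvd_factorial hp).mp h
      omega
  rw [← ZMod.intCast_zmod_eq_zero_iff_dvd, ← ZMod.natCast_eq_zero_iff, ← hkey, mul_eq_zero]
  constructor
  · intro h; right; exact h
  · rintro (h | h)
    · exact absurd h hunit
    · exact h

/-- For primes `p > 2 m + 1` with `p ≡ 1 (mod 4)`: `p ∣ D_p^{(m)}` if and only if `p` divides one
of the positive integers `num m r`, `0 ≤ r ≤ m`. -/
lemma dvd_legendreDet_iff_num {p : ℕ} [Fact p.Prime] (h4 : p % 4 = 1) {m : ℕ}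
    (hmp : 2 * m + 1 < p) :
    (p : ℤ) ∣ legendreDet m p ↔ ∃ r ≤ m, p ∣ num m r := by
  have hp : p.Prime := Fact.out
  rw [dvd_legendreDet_iff (by omega)]
  set n := (p - 1) / 2 with hn
  have hmn : m < n := by omega
  have hev : Even n := ⟨(p - 1) / 4, by omega⟩
  constructor
  · rintro ⟨r, hr, hd⟩
    rcases Nat.lt_or_ge m r with h | h
    · exfalso
      rw [coef_of_gt h hr] at hd
      have hd' : (p : ℤ) ∣ ((m + n).choose r : ℤ) := by
        rcases neg_one_pow_eq_or ℤ (m + n - r) with e | e <;> rw [e] at hd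
        · simpa using hd
        · simpa using hd
      have hd'' : p ∣ (m + n).choose r := by exact_mod_cast hd'
      have h1 : p ∣ (m + n).factorial := by
        rw [← Nat.choose_mul_factorial_mul_factorial (by omega : r ≤ m + n), mul_assoc]
        exact Dvd.dvd.mul_right hd'' _
      have := (Nat.Prime.dvd_factorial hp).mp h1
      omega
    · refine ⟨r, h, ?_⟩
      rw [coef_of_lt hmn hev h] at hd
      rw [← dvd_sum_choose_iff (by omega) (by omega) h]
      rcases neg_one_pow_eq_or ℤ (m - r) with e | e <;> rw [e] at hd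
      · simpa using hd
      · rw [neg_one_mul, dvd_neg] at hd
        exact hd
  · rintro ⟨r, hr, hd⟩
    refine ⟨r, by omega, ?_⟩
    rw [coef_of_lt hmn hev hr]
    exact Dvd.dvd.mul_left ((dvd_sum_choose_iff (by omega) (by omega) hr).mpr hd) _

end Pool.Agent.Helper98.LegendreDet
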