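import Pool.Agent.Helper98.QSuperRing

namespace Pool.Agent.Helper98.QSuper

open Finset

section anti

variable {R : Type*} [CommRing R]

/-- The sum vanishes when `q ^ (n ^ 2) = 1`, `n = N + 1` (antisymmetry `j ↦ n - 1 - j`). -/
theorem anti_ring [Algebra ℚ R] (N : ℕ) (hN : 1 ≤ N) (q : R) (hq : q ^ ((N + 1) ^ 2) = 1)
    (hu : ∀ k : ℕ, ¬ (N + 1) ∣ k → IsUnit (1 - q ^ k)) (P : ℕ → R) (hP0 : P 0 = 1)
    (hP : ∀ j < N, P (j + 1) * (1 - q ^ ((N + 2) * (j + 1))) = P j * (1 - q ^ ((N + 2) * j + 1))) :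
    ∑ j ∈ range (N + 1), (∑ i ∈ range (2 * (N + 2) * j + 1), q ^ i) *
      P j ^ (2 * N + 4) * (q ^ (N * (N + 2))) ^ j = 0 := by
  obtain ⟨x, hxdef⟩ : ∃ x : R, x = q ^ (N + 1) := ⟨_, rfl⟩
  have hxN : x ^ (N + 1) = 1 := by
    rw [hxdef, ← pow_mul, ← hq]; congr 1; ring
  obtain ⟨E, hE⟩ : ∃ E : R, E = q ^ (N * (N + 2)) := ⟨_, rfl⟩
  rw [← hE]
  have hqE : q * E = 1 := by
    rw [hE, ← hq, ← pow_succ']
    congr 1
    ring
  obtain ⟨T, hT⟩ : ∃ T : ℕ → R, ∀ j, T j = q ^ ((N + 2) * j) := ⟨_, fun _ => rfl⟩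
  have hTsucc : ∀ j, T (j + 1) = q * x * T j := by
    intro j
    rw [hT, hT, hxdef, ← pow_succ', ← pow_add]
    congr 1
    ring
  have hTunit : ∀ j, 1 ≤ j → j ≤ N → IsUnit (1 - T j) := by
    intro j h1 h2
    rw [hT]
    apply hu
    intro hd
    have : (N + 1) ∣ j := by
      have h3 : (N + 2) * j = (N + 1) * j + j := by ring
      rw [h3] at hd
      exact (Nat.dvd_add_right (Dvd.intro _ rfl)).mp hd
    have := Nat.le_of_dvd (by omega) this
    omega
  have hTT : ∀ j ≤ N, q * T j * T (N - j) = 1 := by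
    intro j hj
    rw [← hqE, hE, hT, hT, mul_assoc, ← pow_add]
    congr 2
    obtain ⟨d, rfl⟩ : ∃ d, N = j + d := ⟨N - j, by omega⟩
    rw [Nat.add_sub_cancel_left]
    ring
  have hPrefl : ∀ j ≤ N, P (N - j) = P N * x ^ j * P j := by
    intro j
    induction j with
    | zero => intro _; rw [Nat.sub_zero, hP0]; ring
    | succ j ih =>
      intro hj
      have h1 := ih (by omega)
      have h2 := hP (N - (j + 1)) (by omega)
      have h3 := hP j (by omega)
      rw [show N - (j + 1) + 1 = N - j by omega] at h2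
      have e1 : q ^ ((N + 2) * (N - (j + 1)) + 1) = q * T (N - (j + 1)) := by
        rw [hT, ← pow_succ']
      have e2 : q ^ ((N + 2) * j + 1) = q * T j := by
        rw [hT, ← pow_succ']
      rw [e1, ← hT] at h2
      rw [e2, ← hT] at h3
      have t1 := hTT j (by omega)
      have t2 := hTT (j + 1) hj
      have t3 := hTsucc j
      have hunit := hTunit (j + 1) (by omega) hj
      apply hunit.mul_left_cancel
      -- multiply `h2` by `T (j + 1) = q x T j`
      rw [h1] at h2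
      rw [pow_succ]
      rw [t3] at h3 t2 ⊢
      linear_combination (q * x * T j) * h2 - (P N * x ^ j * x) * h3 +
        (P N * x ^ j * P j * x) * t1 - (P (N - (j + 1))) * t2
  have hPN : P N ^ 2 * x ^ N = 1 := by
    have := hPrefl N le_rfl
    rw [Nat.sub_self, hP0] at this
    linear_combination -this
  have hPN2 : P N ^ 2 = x := by
    linear_combination x * hPN - P N ^ 2 * hxN
  have hPNM : P N ^ (2 * N + 4) = x := by
    rw [show 2 * N + 4 = 2 * (N + 2) by ring, pow_mul, hPN2, pow_succ, hxN, one_mul]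
  have hqunit : IsUnit (1 - q) := by
    have := hu 1 (by
      intro hd
      have := Nat.le_of_dvd one_pos hd
      omega)
    rwa [pow_one] at this
  have hqu : IsUnit q := IsUnit.of_mul_eq_one _ hqE
  obtain ⟨A, hA⟩ : ∃ A : ℕ → R, ∀ j, A j = (1 - q * T j ^ 2) * P j ^ (2 * N + 4) * E ^ j :=
    ⟨_, fun _ => rfl⟩
  have hanti : ∀ j ≤ N, A (N - j) = -A j := by
    intro j hj
    rw [hA, hA, hPrefl j hj]
    have t1 := hTT j hj
    have p1 : (P N * x ^ j * P j) ^ (2 * N + 4) = x * x ^ (2 * j) * P j ^ (2 * N + 4) := by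
      rw [mul_pow, mul_pow, hPNM, ← pow_mul]
      congr 2
      rw [show j * (2 * N + 4) = (N + 1) * (2 * j) + 2 * j by ring, pow_add, pow_mul, hxN]
      simp
    rw [p1]
    have p2 : E ^ (N - j) * x * x ^ (2 * j) = q * T j ^ 2 * E ^ j := by
      have hqp : IsUnit (q ^ (N - j)) := hqu.pow _
      apply hqp.mul_left_cancel
      have q1 : q ^ (N - j) * E ^ (N - j) = 1 := by rw [← mul_pow, hqE, one_pow]
      have q2 : q ^ j * E ^ j = 1 := by rw [← mul_pow, hqE, one_pow]
      have q3 : T j ^ 2 = (q ^ j * q ^ j) * x ^ (2 * j) := by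
        rw [hT, hxdef, ← pow_mul, ← pow_mul, ← pow_add, ← pow_add]
        congr 1
        ring
      have q4 : q ^ (N - j) * q * q ^ j = x := by
        rw [hxdef, ← pow_succ, ← pow_add]
        congr 1
        omega
      rw [q3]
      linear_combination (x * x ^ (2 * j)) * q1 - (q ^ (N - j) * q * q ^ j * x ^ (2 * j)) * q2 -
        x ^ (2 * j) * q4
    have p3 : (1 - q * T (N - j) ^ 2) * (q * T j ^ 2) = -(1 - q * T j ^ 2) := by
      linear_combination (-(q * T j * T (N - j)) - 1) * t1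
    linear_combination ((1 - q * T (N - j) ^ 2) * P j ^ (2 * N + 4)) * p2 +
      (P j ^ (2 * N + 4) * E ^ j) * p3
  obtain ⟨Stot, hStot⟩ : ∃ Stot : R, Stot = ∑ j ∈ range (N + 1),
      (∑ i ∈ range (2 * (N + 2) * j + 1), q ^ i) * P j ^ (2 * N + 4) * E ^ j := ⟨_, rfl⟩
  rw [← hStot]
  have hgeo : ∑ j ∈ range (N + 1), A j = (1 - q) * Stot := by
    rw [hStot, Finset.mul_sum]
    refine Finset.sum_congr rfl fun j _ => ?_
    have h1 := geom0 q (2 * (N + 2) * j + 1)
    have h2 : q ^ (2 * (N + 2) * j + 1) = q * T j ^ 2 := by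
      rw [hT, ← pow_mul, ← pow_succ']
      congr 1
      ring
    rw [h2] at h1
    rw [hA, ← h1]
    ring
  have hsum : ∑ j ∈ range (N + 1), A j = -∑ j ∈ range (N + 1), A j := by
    conv_lhs => rw [← Finset.sum_range_reflect]
    rw [← Finset.sum_neg_distrib]
    refine Finset.sum_congr rfl fun j hj => ?_
    rw [Finset.mem_range] at hj
    rw [show N + 1 - 1 - j = N - j by omega]
    exact hanti j (by omega)
  have h2 : IsUnit (2 : R) := by
    have : (2 : R) = algebraMap ℚ R 2 := (map_ofNat (algebraMap ℚ R) 2).symm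
    rw [this]
    exact (IsUnit.mk0 (2 : ℚ) (by norm_num)).map (algebraMap ℚ R)
  have h0 : (2 * (1 - q)) * Stot = 0 := by
    rw [hgeo] at hsum
    linear_combination hsum
  exact (h2.mul hqunit).mul_right_eq_zero.mp h0

end anti

end Pool.Agent.Helper98.QSuper
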