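import Pool.Agent.Helper98.QSuperRing

namespace Pool.Agent.Helper98.QSuper

open Finset

section main

variable {R : Type*} [CommRing R]

/-- The inverse `Ring.inverse` of a unit. -/
lemma mul_inv_unit {a : R} (h : IsUnit a) : a * Ring.inverse a = 1 := Ring.mul_inverse_cancel a h

/-- The reflection `j ↦ n - j`. -/
lemma refl_lemma {x y t t' u u' : R} (hy5 : y ^ 5 = 0) (hx1 : x * (1 + y) = 1) (N : ℕ)
    (hTT : t * t' = x ^ (N + 2)) (a1 : (1 - t) * u = 1) (a2 : (1 - t') * u' = 1) :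
    y ^ 3 * ((2 * (t * u) + 1) + (2 * (t' * u') + 1)) =
      -(2 * ((N : R) + 2)) * (y ^ 4 * ((t * u) * (t * u + 1))) := by
  have b1 := y3_mul_xpow hy5 hx1 (N + 2)
  have b2 := y4_mul_xpow hy5 hx1 (N + 2)
  push_cast at b1
  rw [← hTT] at b1 b2
  have c1 : (2 * (t * u) + 1) + (2 * (t' * u') + 1) = 2 * (1 - t * t') * u * u' := by
    linear_combination (-1 - (1 + t') * u') * a1 + (-1 - (1 + t) * u) * a2
  have c2 : y ^ 4 * u' = -(y ^ 4 * (t * u)) := by
    have d1 : y ^ 4 * (t * (1 - t')) = y ^ 4 * (t - 1) := by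
      linear_combination -b2
    linear_combination (u * u') * d1 - (y ^ 4 * u') * a1 - y ^ 4 * t * u * a2
  have c3 : t * u + 1 = u := by linear_combination -a1
  rw [c1, c3]
  linear_combination (-2 * u * u') * b1 + (2 * ((N : R) + 2) * u) * c2

/-- `2 n t / (1 - t) ^ 2 = ∑ k (n - k) t ^ k` on `y ^ 4`. -/
lemma square_lemma {y t u : R} (n : ℕ) (h : y ^ 4 * t ^ n = y ^ 4) (a1 : (1 - t) * u = 1) :
    2 * (n : R) * (y ^ 4 * ((t * u) * (t * u + 1))) =
      y ^ 4 * ∑ k ∈ range n, (k : R) * ((n : R) - (k : R)) * t ^ k := by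
  have a4 := geom_quad n h
  generalize (∑ k ∈ range n, (k : R) * ((n : R) - (k : R)) * t ^ k) = s at a4 ⊢
  have c3 : t * u + 1 = u := by linear_combination -a1
  have a5 : ((1 - t) * u) ^ 3 = 1 := by rw [a1]; ring
  have a6 : ((1 - t) * u) * u ^ 2 = u ^ 2 := by rw [a1]; ring
  rw [c3]
  linear_combination (-u ^ 3) * a4 + (y ^ 4 * s) * a5 - (2 * (n : R) * t * y ^ 4) * a6

/-- The sum of a nontrivial root over the group. -/
lemma cyc_lemma {x y t u : R} (hy5 : y ^ 5 = 0) (hx1 : x * (1 + y) = 1) (n e : ℕ)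
    (a1 : (1 - t) * u = 1) (a3 : t ^ n = x ^ e) :
    y ^ 4 * ∑ j ∈ range n, t ^ j = 0 := by
  have a2 := geom0 t n
  have a4 := y4_mul_xpow hy5 hx1 e
  rw [a3] at a2
  linear_combination (-(y ^ 4 * ∑ j ∈ range n, t ^ j)) * a1 + (y ^ 4 * u) * a2 - u * a4

/-- One term of the Abel summation. -/
lemma term_lemma {x y v q E T0 t γ Pj Pj1 Ej Ej1 G : R} (hy5 : y ^ 5 = 0) (hx1 : x * (1 + y) = 1)
    (hvy : v = 1 + y) (N j : ℕ) (hqE : q * E = x ^ (N + 1)) (ht : t = q * x * T0)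
    (h7 : (1 - t) * γ = t) (e6 : (1 - t) ^ 2 * (γ * (γ + 1)) = t) (hE1 : Ej1 = E * Ej)
    (e7 : Ej1 * t = x ^ ((N + 2) * (j + 1))) (hPj1 : Pj1 = Pj * (1 - γ * y))
    (e9 : y ^ 3 * Pj ^ (2 * N + 4) = y ^ 3 - ((2 * N + 4 : ℕ) : R) * G * y ^ 4) :
    576 * ((1 - q * T0) * (E - T0) * Pj ^ (2 * N + 4) * Ej -
        (1 - t) * (1 - q * E * t) * Pj1 ^ (2 * N + 4) * Ej1) =
      -(96 * ((N : R) + 1) * ((N : R) + 2) * (2 * (N : R) + 3)) *
        (y ^ 3 * (2 * γ + 1) + y ^ 4 *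
          (((1 - 2 * ((N : R) + 1)) * γ ^ 2 - (((N : R) + 1) + 1) * γ - 1) -
          (2 * γ + 1) * (γ + (2 * ((N : R) + 1) + 2) * G +
            (((N : R) + 1) + 1) * ((j : R) + 1)))) := by
  have hv : x * v = 1 := by rw [hvy]; exact hx1
  have hkey := key_expansion (g := γ) hy5 hx1 (N + 1)
  push_cast at hkey
  have e1 : 1 - q * T0 = (1 - t) * (1 - γ * y) := by
    have h4 : q * T0 = t * v := by
      rw [ht]; linear_combination -(q * T0) * hv
    rw [h4, hvy]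
    linear_combination y * h7
  have e2 : E - T0 = E * ((1 - t) * (1 - γ * ((1 + y) ^ (N + 1 + 1) - 1))) := by
    have h5 : E * (t * (1 + y) ^ (N + 1 + 1)) = T0 := by
      rw [ht, ← hvy]
      have h6 : E * (q * x * T0 * v ^ (N + 1 + 1)) = (q * E) * x * v ^ (N + 1 + 1) * T0 := by ring
      rw [h6, hqE, ← pow_succ, ← mul_pow, hv]
      simp
    linear_combination E * ((1 + y) ^ (N + 1 + 1) - 1) * h7 + h5
  have e3 : 1 - q * E * t = (1 - t) * (1 - γ * (x ^ (N + 1) - 1)) := by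
    rw [hqE]
    linear_combination (x ^ (N + 1) - 1) * h7
  have e4 : Pj1 ^ (2 * N + 4) = Pj ^ (2 * N + 4) * (1 - γ * y) ^ (2 * N + 4) := by
    rw [hPj1, mul_pow]
  have e5 : (1 - γ * y) ^ (2 * N + 4) = (1 - γ * y) * (1 - γ * y) ^ (2 * (N + 1) + 1) := by
    rw [← pow_succ']
    congr 1
  have e10 := y4_mul_xpow hy5 hx1 ((N + 2) * (j + 1))
  have e8 := y3_mul_xpow hy5 hx1 ((N + 2) * (j + 1))
  have e11 : y ^ 4 * Pj ^ (2 * N + 4) = y ^ 4 := by
    linear_combination y * e9 - ((2 * N + 4 : ℕ) : R) * G * hy5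
  have step1 : 576 * ((1 - q * T0) * (E - T0) * Pj ^ (2 * N + 4) * Ej -
      (1 - t) * (1 - q * E * t) * Pj1 ^ (2 * N + 4) * Ej1) =
      Pj ^ (2 * N + 4) * Ej1 * ((1 - t) ^ 2 * (1 - γ * y)) *
        (576 * ((1 - γ * ((1 + y) ^ (N + 1 + 1) - 1)) -
          (1 - γ * (x ^ (N + 1) - 1)) * (1 - γ * y) ^ (2 * (N + 1) + 1))) := by
    rw [e1, e2, e3, e4, e5, hE1]
    generalize (1 + y) ^ (N + 1 + 1) = A
    generalize x ^ (N + 1) = B
    generalize (1 - γ * y) ^ (2 * (N + 1) + 1) = D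
    generalize Pj ^ (2 * N + 4) = F
    ring
  rw [step1, hkey]
  clear step1 hkey e1 e2 e3 e4 e5
  have f1 : y ^ 3 * x ^ ((N + 2) * (j + 1)) * Pj ^ (2 * N + 4) =
      y ^ 3 - (((N : R) + 2) * ((j : R) + 1) + (2 * ((N : R) + 1) + 2) * G) * y ^ 4 := by
    rw [e8]
    push_cast at e9 ⊢
    linear_combination e9 - (((N : R) + 2) * ((j : R) + 1)) * e11
  have f2 : y ^ 4 * x ^ ((N + 2) * (j + 1)) * Pj ^ (2 * N + 4) = y ^ 4 := by
    rw [e10, e11]
  rw [← e7] at f1 f2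
  clear e7 e8 e9 e10 e11
  generalize Pj ^ (2 * N + 4) = F at f1 f2 ⊢
  linear_combination (-(96 * ((N : R) + 1) * ((N : R) + 2) * (2 * (N : R) + 3)) *
      (F * Ej1 * (1 - γ * y) * ((2 * γ + 1) * y ^ 3 +
        ((1 - 2 * ((N : R) + 1)) * γ ^ 2 - (((N : R) + 1) + 1) * γ - 1) * y ^ 4))) * e6 +
    (-(96 * ((N : R) + 1) * ((N : R) + 2) * (2 * (N : R) + 3))) *
    (((1 - γ * y) * (2 * γ + 1)) * f1 +
      ((1 - γ * y) * ((1 - 2 * ((N : R) + 1)) * γ ^ 2 - (((N : R) + 1) + 1) * γ - 1)) * f2 +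
      (γ * (2 * γ + 1) * (((N : R) + 2) * ((j : R) + 1) + (2 * ((N : R) + 1) + 2) * G) -
        γ * ((1 - 2 * ((N : R) + 1)) * γ ^ 2 - (((N : R) + 1) + 1) * γ - 1)) * hy5)

/-- The evaluation of the sum modulo `(q ^ n - 1) ^ 5`, `n = N + 1`. -/
theorem main_ring [Algebra ℚ R] (N : ℕ) (hN : 1 ≤ N) (q : R) (hnil : (q ^ (N + 1) - 1) ^ 5 = 0)
    (hu : ∀ k : ℕ, ¬ (N + 1) ∣ k → IsUnit (1 - q ^ k)) (P : ℕ → R) (hP0 : P 0 = 1)
    (hP : ∀ j < N, P (j + 1) * (1 - q ^ ((N + 2) * (j + 1))) = P j * (1 - q ^ ((N + 2) * j + 1))) :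
    72 * (1 - q) ^ 2 * ∑ j ∈ range (N + 1), (∑ i ∈ range (2 * (N + 2) * j + 1), q ^ i) *
      P j ^ (2 * N + 4) * (q ^ (N * (N + 2))) ^ j =
    -(((N : R) + 1) ^ 2 * ((N : R) + 2) ^ 2 * (N : R) * (2 * (N : R) + 3)) * q *
      (q ^ (N + 1) - 1) ^ 4 := by
  obtain ⟨x, hxdef⟩ : ∃ x : R, x = q ^ (N + 1) := ⟨_, rfl⟩
  rw [← hxdef] at hnil ⊢
  have hxunit : IsUnit x := by
    have h1 : IsNilpotent (x - 1) := ⟨5, hnil⟩
    have := h1.isUnit_one_add
    rwa [add_sub_cancel] at this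
  obtain ⟨v, hv⟩ : ∃ v, x * v = 1 := ⟨Ring.inverse x, mul_inv_unit hxunit⟩
  obtain ⟨y, hydef⟩ : ∃ y : R, y = v - 1 := ⟨_, rfl⟩
  have hvy : v = 1 + y := by rw [hydef]; ring
  have hx1 : x * (1 + y) = 1 := by rw [← hvy]; exact hv
  have hyx : y = -(x - 1) * v := by
    rw [hydef]; linear_combination hv
  have hy5 : y ^ 5 = 0 := by
    rw [hyx, mul_pow, neg_pow, hnil]; ring
  have hε4 : (x - 1) ^ 4 = y ^ 4 := by
    have h1 : x - 1 = -(y * x) := by linear_combination hx1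
    have h2 := y4_mul_xpow hy5 hx1 4
    rw [h1]
    linear_combination h2
  -- basic quantities
  obtain ⟨E, hE⟩ : ∃ E : R, E = q ^ (N * (N + 2)) := ⟨_, rfl⟩
  rw [← hE]
  have hqE : q * E = x ^ (N + 1) := by
    rw [hE, hxdef, ← pow_mul, ← pow_succ']
    congr 1
    ring
  obtain ⟨T, hT⟩ : ∃ T : ℕ → R, ∀ j, T j = q ^ ((N + 2) * j) := ⟨_, fun _ => rfl⟩
  have hT0 : T 0 = 1 := by rw [hT]; simp
  have hTsucc : ∀ j, T (j + 1) = q * x * T j := by
    intro j
    rw [hT, hT, hxdef, ← pow_succ', ← pow_add]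
    congr 1
    ring
  have hTN : T N = E := by
    rw [hT, hE]
    congr 1
    ring
  have hTn : ∀ k, T k ^ (N + 1) = x ^ ((N + 2) * k) := by
    intro k
    rw [hT, hxdef, ← pow_mul, ← pow_mul]
    congr 1
    ring
  have hTunit : ∀ j, 1 ≤ j → j ≤ N → IsUnit (1 - T j) := by
    intro j h1 h2
    rw [hT]
    apply hu
    intro hd
    have : (N + 1) ∣ j := by
      have h3 : (N + 2) * j = (N + 1) * j + j := by ring
      rw [h3] at hd
      exact (Nat.dvd_add_right (Dvd.intro _ rfl)).mp hd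
    have := Nat.le_of_dvd (by omega) this
    omega
  obtain ⟨U, hTU⟩ : ∃ U : ℕ → R, ∀ j, 1 ≤ j → j ≤ N → (1 - T j) * U j = 1 :=
    ⟨fun j => Ring.inverse (1 - T j), fun j h1 h2 => mul_inv_unit (hTunit j h1 h2)⟩
  obtain ⟨g, hg⟩ : ∃ g : ℕ → R, ∀ j, g j = T j * U j := ⟨_, fun _ => rfl⟩
  have hgT : ∀ j, 1 ≤ j → j ≤ N → (1 - T j) * g j = T j := by
    intro j h1 h2
    rw [hg]
    linear_combination T j * hTU j h1 h2
  have hgg : ∀ j, 1 ≤ j → j ≤ N → (1 - T j) ^ 2 * (g j * (g j + 1)) = T j := by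
    intro j h1 h2
    have e1 := hgT j h1 h2
    linear_combination ((1 - T j) * (g j + 1)) * e1 + T j * e1
  -- the recursion of `P`
  have hPrec : ∀ j < N, P (j + 1) = P j * (1 - g (j + 1) * y) := by
    intro j hj
    have h1 := hP j hj
    have e2 := hTU (j + 1) (by omega) (by omega)
    have h3 : (1 : R) - q ^ ((N + 2) * j + 1) = (1 - T (j + 1)) * (1 - g (j + 1) * y) := by
      have h4 : q ^ ((N + 2) * j + 1) = T (j + 1) * v := by
        rw [hTsucc, pow_succ, ← hT]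
        linear_combination -(T j * q) * hv
      rw [h4, hvy]
      linear_combination y * hgT (j + 1) (by omega) (by omega)
    rw [h3, ← hT] at h1
    linear_combination (U (j + 1)) * h1 - (P (j + 1) - P j * (1 - g (j + 1) * y)) * e2
  -- powers of `P` modulo `y ^ 2`
  have hPrem : ∀ j ≤ N, ∃ r, P j = 1 - y * ∑ i ∈ range j, g (i + 1) + y ^ 2 * r := by
    intro j
    induction j with
    | zero => intro _; exact ⟨0, by simp [hP0]⟩
    | succ j ih =>
      intro hj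
      obtain ⟨r, hr⟩ := ih (by omega)
      refine ⟨r - r * g (j + 1) * y + (∑ i ∈ range j, g (i + 1)) * g (j + 1), ?_⟩
      rw [hPrec j (by omega), hr, sum_range_succ]
      ring
  have hPpow : ∀ j ≤ N, ∀ m : ℕ,
      y ^ 3 * P j ^ m = y ^ 3 - (m : R) * (∑ i ∈ range j, g (i + 1)) * y ^ 4 := by
    intro j hj m
    obtain ⟨r, hr⟩ := hPrem j hj
    induction m with
    | zero => simp
    | succ m ih =>
      have e1 : y ^ 3 * P j ^ (m + 1) = (y ^ 3 * P j ^ m) * P j := by ring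
      rw [e1, ih, hr]
      push_cast
      linear_combination (r + (m : R) * (∑ i ∈ range j, g (i + 1)) * (∑ i ∈ range j, g (i + 1)) -
        (m : R) * (∑ i ∈ range j, g (i + 1)) * y * r) * hy5
  -- Abel summation
  have habel : (E - 1) * ∑ j ∈ range (N + 1), (1 - q * T j ^ 2) * P j ^ (2 * N + 4) * E ^ j =
      ∑ j ∈ range N, ((1 - q * T j) * (E - T j) * P j ^ (2 * N + 4) * E ^ j -
        (1 - T (j + 1)) * (1 - q * E * T (j + 1)) * P (j + 1) ^ (2 * N + 4) * E ^ (j + 1)) := by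
    have h1 : (E - 1) * ∑ j ∈ range (N + 1), (1 - q * T j ^ 2) * P j ^ (2 * N + 4) * E ^ j =
        ∑ j ∈ range (N + 1), (1 - q * T j) * (E - T j) * P j ^ (2 * N + 4) * E ^ j -
        ∑ j ∈ range (N + 1), (1 - T j) * (1 - q * E * T j) * P j ^ (2 * N + 4) * E ^ j := by
      rw [Finset.mul_sum, ← Finset.sum_sub_distrib]
      refine Finset.sum_congr rfl fun j _ => ?_
      generalize P j ^ (2 * N + 4) = F
      generalize E ^ j = F'
      ring
    rw [h1, sum_range_succ, sum_range_succ'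
      (fun j => (1 - T j) * (1 - q * E * T j) * P j ^ (2 * N + 4) * E ^ j),
      hTN, hT0, Finset.sum_sub_distrib]
    simp
  have hterm : ∀ j < N, 576 * ((1 - q * T j) * (E - T j) * P j ^ (2 * N + 4) * E ^ j -
        (1 - T (j + 1)) * (1 - q * E * T (j + 1)) * P (j + 1) ^ (2 * N + 4) * E ^ (j + 1)) =
      -(96 * ((N : R) + 1) * ((N : R) + 2) * (2 * (N : R) + 3)) *
        (y ^ 3 * (2 * g (j + 1) + 1) + y ^ 4 *
          (((1 - 2 * ((N : R) + 1)) * g (j + 1) ^ 2 - (((N : R) + 1) + 1) * g (j + 1) - 1) -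
          (2 * g (j + 1) + 1) * (g (j + 1) + (2 * ((N : R) + 1) + 2) * ∑ i ∈ range j, g (i + 1) +
            (((N : R) + 1) + 1) * ((j : R) + 1)))) := by
    intro j hj
    refine term_lemma hy5 hx1 hvy N j hqE (hTsucc j) (hgT (j + 1) (by omega) (by omega))
      (hgg (j + 1) (by omega) (by omega)) (pow_succ' E j) ?_ (hPrec j hj)
      (hPpow j (by omega) (2 * N + 4))
    rw [hT, hE, hxdef, ← pow_mul, ← pow_mul, ← pow_add]
    congr 1
    ring
  -- the three sums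
  obtain ⟨S1, hS1def⟩ : ∃ S1 : R, S1 = ∑ j ∈ range N, (2 * g (j + 1) + 1) := ⟨_, rfl⟩
  obtain ⟨S3, hS3def⟩ : ∃ S3 : R, S3 = ∑ j ∈ range N, g (j + 1) * (g (j + 1) + 1) := ⟨_, rfl⟩
  have hrefl : ∀ j < N, y ^ 3 * ((2 * g (j + 1) + 1) + (2 * g (N - j) + 1)) =
      -(2 * ((N : R) + 2)) * (y ^ 4 * (g (j + 1) * (g (j + 1) + 1))) := by
    intro j hj
    have hTT : T (j + 1) * T (N - j) = x ^ (N + 2) := by
      rw [hT, hT, hxdef, ← pow_add, ← pow_mul]
      congr 1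
      obtain ⟨d, rfl⟩ : ∃ d, N = j + d := ⟨N - j, by omega⟩
      rw [Nat.add_sub_cancel_left]
      ring
    rw [hg, hg]
    exact refl_lemma hy5 hx1 N hTT (hTU (j + 1) (by omega) (by omega))
      (hTU (N - j) (by omega) (by omega))
  have hS1 : 2 * (y ^ 3 * S1) = -(2 * ((N : R) + 2)) * (y ^ 4 * S3) := by
    have h1 : S1 = ∑ j ∈ range N, (2 * g (N - j) + 1) := by
      rw [hS1def, ← Finset.sum_range_reflect]
      refine Finset.sum_congr rfl fun j hj => ?_
      rw [Finset.mem_range] at hj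
      have : N - 1 - j + 1 = N - j := by omega
      rw [this]
    have h2 : 2 * (y ^ 3 * S1) =
        ∑ j ∈ range N, y ^ 3 * ((2 * g (j + 1) + 1) + (2 * g (N - j) + 1)) := by
      rw [← Finset.mul_sum, Finset.sum_add_distrib, ← h1, ← hS1def]
      ring
    rw [h2, hS3def, Finset.mul_sum, Finset.mul_sum]
    refine Finset.sum_congr rfl fun j hj => ?_
    rw [Finset.mem_range] at hj
    rw [hrefl j hj]
  have hS1y : 2 * (y ^ 4 * S1) = 0 := by
    linear_combination y * hS1 - (2 * ((N : R) + 2)) * S3 * hy5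
  -- the sum of the squares
  have hcyc : ∀ k, 1 ≤ k → k ≤ N → y ^ 4 * ∑ j ∈ range N, T (j + 1) ^ k = -y ^ 4 := by
    intro k h1 h2
    have a2 := cyc_lemma hy5 hx1 (N + 1) ((N + 2) * k) (hTU k h1 h2) (hTn k)
    have a5 : ∑ j ∈ range N, T (j + 1) ^ k = ∑ j ∈ range (N + 1), T k ^ j - 1 := by
      rw [Finset.sum_range_succ' (fun j => T k ^ j)]
      simp only [pow_zero, add_sub_cancel_right]
      refine Finset.sum_congr rfl fun j _ => ?_
      rw [hT, hT, ← pow_mul, ← pow_mul]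
      congr 1
      ring
    rw [a5]
    linear_combination a2
  have hS3 : 12 * (((N : R) + 1) * (y ^ 4 * S3)) =
      -(((N : R) + 1) * (((N : R) + 1) ^ 2 - 1) * y ^ 4) := by
    have h1 : ∀ j < N, 2 * ((N : R) + 1) * (y ^ 4 * (g (j + 1) * (g (j + 1) + 1))) =
        y ^ 4 * ∑ k ∈ range (N + 1), (k : R) * (((N : R) + 1) - (k : R)) * T (j + 1) ^ k := by
      intro j hj
      have a2 : y ^ 4 * T (j + 1) ^ (N + 1) = y ^ 4 := by
        rw [hTn]
        exact y4_mul_xpow hy5 hx1 _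
      have := square_lemma (N + 1) a2 (hTU (j + 1) (by omega) (by omega))
      rw [hg]
      push_cast at this
      exact this
    have h2 : 2 * ((N : R) + 1) * (y ^ 4 * S3) =
        ∑ k ∈ range (N + 1), (k : R) * (((N : R) + 1) - (k : R)) *
          (y ^ 4 * ∑ j ∈ range N, T (j + 1) ^ k) := by
      rw [hS3def, Finset.mul_sum, Finset.mul_sum]
      have h3 : ∀ j ∈ range N, 2 * ((N : R) + 1) * (y ^ 4 * (g (j + 1) * (g (j + 1) + 1))) =
          ∑ k ∈ range (N + 1), (k : R) * (((N : R) + 1) - (k : R)) * (y ^ 4 * T (j + 1) ^ k) := by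
        intro j hj
        rw [Finset.mem_range] at hj
        rw [h1 j hj, Finset.mul_sum]
        refine Finset.sum_congr rfl fun k _ => ?_
        ring
      rw [Finset.sum_congr rfl h3, Finset.sum_comm]
      refine Finset.sum_congr rfl fun k _ => ?_
      rw [Finset.mul_sum, Finset.mul_sum]
    have h4 : ∑ k ∈ range (N + 1), (k : R) * (((N : R) + 1) - (k : R)) *
          (y ^ 4 * ∑ j ∈ range N, T (j + 1) ^ k) =
        ∑ k ∈ range (N + 1), (k : R) * (((N : R) + 1) - (k : R)) * (-y ^ 4) := by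
      refine Finset.sum_congr rfl fun k hk => ?_
      rw [Finset.mem_range] at hk
      rcases Nat.eq_zero_or_pos k with h0 | h0
      · subst h0; simp
      · rw [hcyc k h0 (by omega)]
    have h5 := sum_quad ((N : R) + 1) (N + 1)
    rw [h4, ← Finset.sum_mul] at h2
    push_cast at h5
    linear_combination 6 * h2 - y ^ 4 * h5
  have hsec := second_order g ((N : R) + 1) N
  rw [← hS3def, ← hS1def] at hsec
  obtain ⟨S2, hS2def⟩ : ∃ S2 : R, S2 = ∑ j ∈ range N, (((1 - 2 * ((N : R) + 1)) * g (j + 1) ^ 2 -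
      (((N : R) + 1) + 1) * g (j + 1) - 1) -
      (2 * g (j + 1) + 1) * (g (j + 1) + (2 * ((N : R) + 1) + 2) * ∑ i ∈ range j, g (i + 1) +
        (((N : R) + 1) + 1) * ((j : R) + 1))) := ⟨_, rfl⟩
  rw [← hS2def] at hsec
  have htotal : 576 * ((E - 1) * ∑ j ∈ range (N + 1), (1 - q * T j ^ 2) * P j ^ (2 * N + 4) *
      E ^ j) =
      -(96 * ((N : R) + 1) * ((N : R) + 2) * (2 * (N : R) + 3)) * (y ^ 3 * S1 + y ^ 4 * S2) := by
    rw [habel, Finset.mul_sum, Finset.sum_congr rfl (fun j hj => hterm j (Finset.mem_range.mp hj)),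
      ← Finset.mul_sum, Finset.sum_add_distrib, ← Finset.mul_sum, ← Finset.mul_sum,
      ← hS1def, ← hS2def]
  -- put everything together
  obtain ⟨Stot, hStot⟩ : ∃ Stot : R, Stot = ∑ j ∈ range (N + 1),
      (∑ i ∈ range (2 * (N + 2) * j + 1), q ^ i) * P j ^ (2 * N + 4) * E ^ j := ⟨_, rfl⟩
  rw [← hStot]
  have hgeo : ∑ j ∈ range (N + 1), (1 - q * T j ^ 2) * P j ^ (2 * N + 4) * E ^ j =
      (1 - q) * Stot := by
    rw [hStot, Finset.mul_sum]
    refine Finset.sum_congr rfl fun j _ => ?_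
    have h1 := geom0 q (2 * (N + 2) * j + 1)
    have h2 : q ^ (2 * (N + 2) * j + 1) = q * T j ^ 2 := by
      rw [hT, ← pow_mul, ← pow_succ']
      congr 1
      ring
    rw [h2] at h1
    rw [← h1]
    ring
  rw [hgeo] at htotal
  have hmain : 72 * ((E - 1) * ((1 - q) * Stot)) =
      -((((N : R) + 1) ^ 2 * ((N : R) + 2) ^ 2 * (N : R) * (2 * (N : R) + 3)) * y ^ 4) := by
    have h2 : IsUnit (192 : R) := by
      have : (192 : R) = algebraMap ℚ R 192 := (map_ofNat (algebraMap ℚ R) 192).symm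
      rw [this]
      exact (IsUnit.mk0 (192 : ℚ) (by norm_num)).map (algebraMap ℚ R)
    apply h2.mul_left_cancel
    clear hterm habel hPpow hPrem hPrec hgg hgT hTU hrefl hcyc hgeo hP hu hStot hS2def hS3def
      hS1def hTn hTunit hTsucc hT hg
    linear_combination 24 * htotal +
        (-(96 * ((N : R) + 1) * ((N : R) + 2) * (2 * (N : R) + 3))) *
        (12 * hS1 + 12 * y ^ 4 * hsec - 6 * ((N : R) + 4) * hS1y -
          6 * ((N : R) + 2) * S1 * hS1y - 2 * hS3)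
  have hEunit : IsUnit (E - 1) := by
    have h1 : IsUnit (1 - q ^ (N * (N + 2))) := by
      apply hu
      intro hd
      have h2 : (N + 1) ∣ N * (N + 2) + 1 := ⟨N + 1, by ring⟩
      have h3 := (Nat.dvd_add_right hd).mp h2
      have := Nat.le_of_dvd one_pos h3
      omega
    have h4 : E - 1 = -(1 - q ^ (N * (N + 2))) := by rw [hE]; ring
    rw [h4]
    exact h1.neg
  have hqunit : IsUnit (1 - q) := by
    have := hu 1 (by
      intro hd
      have := Nat.le_of_dvd one_pos hd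
      omega)
    rwa [pow_one] at this
  have h72 : IsUnit (72 : R) := by
    have : (72 : R) = algebraMap ℚ R 72 := (map_ofNat (algebraMap ℚ R) 72).symm
    rw [this]
    exact (IsUnit.mk0 (72 : ℚ) (by norm_num)).map (algebraMap ℚ R)
  have hyS : y * Stot = 0 := by
    have h1 : (72 * (E - 1) * (1 - q)) * (y * Stot) = 0 := by
      linear_combination y * hmain - (((N : R) + 1) ^ 2 * ((N : R) + 2) ^ 2 * (N : R) *
        (2 * (N : R) + 3)) * hy5
    exact ((h72.mul hEunit).mul hqunit).mul_right_eq_zero.mp h1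
  obtain ⟨w, hw⟩ : (x - 1) ∣ x ^ (N + 1) - 1 := by
    simpa using sub_dvd_pow_sub_pow x 1 (N + 1)
  have hx1y : x - 1 = -(y * x) := by linear_combination hx1
  have hfin : (x ^ (N + 1) - 1) * Stot = 0 := by
    rw [hw, hx1y]
    linear_combination (-(x * w)) * hyS
  rw [hε4]
  rw [← hqE] at hfin
  linear_combination q * hmain - 72 * (1 - q) * hfin

end main

end Pool.Agent.Helper98.QSuper
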