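import Mathlib

/-!
# Ring-theoretic core of the q-supercongruence

`R` is a commutative `ℚ`-algebra, `q` a unit with `(q ^ n - 1) ^ 5 = 0` such that `1 - q ^ k` is a
unit whenever `n ∤ k`.
-/

namespace Pool.Agent.Helper98.QSuper

open Finset

section trunc

variable {R : Type*} [CommRing R]

/-- Truncated binomial expansion, without denominators. -/
lemma pow_one_add {y : R} (hy : y ^ 5 = 0) (m : ℕ) :
    24 * (1 + y) ^ m = 24 + 24 * (m : R) * y + 12 * (m : R) * ((m : R) - 1) * y ^ 2 +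
      4 * (m : R) * ((m : R) - 1) * ((m : R) - 2) * y ^ 3 +
      (m : R) * ((m : R) - 1) * ((m : R) - 2) * ((m : R) - 3) * y ^ 4 := by
  induction m with
  | zero => simp
  | succ m ih =>
    push_cast
    rw [pow_succ]
    linear_combination (1 + y) * ih +
      (m : R) * ((m : R) - 1) * ((m : R) - 2) * ((m : R) - 3) * hy

/-- Truncated expansion of the powers of the inverse of `1 + y`. -/
lemma inv_pow_one_add {x y : R} (hy : y ^ 5 = 0) (hx : x * (1 + y) = 1) (m : ℕ) :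
    24 * x ^ m = 24 - 24 * (m : R) * y + 12 * (m : R) * ((m : R) + 1) * y ^ 2 -
      4 * (m : R) * ((m : R) + 1) * ((m : R) + 2) * y ^ 3 +
      (m : R) * ((m : R) + 1) * ((m : R) + 2) * ((m : R) + 3) * y ^ 4 := by
  induction m with
  | zero => simp
  | succ m ih =>
    push_cast
    have h1 : 24 * x ^ (m + 1) * (1 + y) = 24 * x ^ m := by
      rw [pow_succ]; linear_combination 24 * x ^ m * hx
    have h2 : (24 - 24 * ((m : R) + 1) * y + 12 * ((m : R) + 1) * (((m : R) + 1) + 1) * y ^ 2 -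
        4 * ((m : R) + 1) * (((m : R) + 1) + 1) * (((m : R) + 1) + 2) * y ^ 3 +
        ((m : R) + 1) * (((m : R) + 1) + 1) * (((m : R) + 1) + 2) * (((m : R) + 1) + 3) * y ^ 4) *
        (1 + y) = 24 * x ^ m := by
      rw [ih]
      linear_combination
        (((m : R) + 1) * (((m : R) + 1) + 1) * (((m : R) + 1) + 2) * (((m : R) + 1) + 3)) * hy
    have h3 : (24 * x ^ (m + 1) - (24 - 24 * ((m : R) + 1) * y +
        12 * ((m : R) + 1) * (((m : R) + 1) + 1) * y ^ 2 -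
        4 * ((m : R) + 1) * (((m : R) + 1) + 1) * (((m : R) + 1) + 2) * y ^ 3 +
        ((m : R) + 1) * (((m : R) + 1) + 1) * (((m : R) + 1) + 2) * (((m : R) + 1) + 3) * y ^ 4)) *
        (1 + y) = 0 := by
      linear_combination h1 - h2
    have h4 := congrArg (· * x) h3
    simp only [zero_mul] at h4
    rw [mul_assoc, mul_comm (1 + y) x, hx, mul_one] at h4
    linear_combination h4

/-- Multiplication of truncated series. -/
lemma mul_trunc {y : R} (hy : y ^ 5 = 0) (a0 a1 a2 a3 a4 b0 b1 b2 b3 b4 : R) :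
    (a0 + a1 * y + a2 * y ^ 2 + a3 * y ^ 3 + a4 * y ^ 4) *
      (b0 + b1 * y + b2 * y ^ 2 + b3 * y ^ 3 + b4 * y ^ 4) =
    a0 * b0 + (a0 * b1 + a1 * b0) * y + (a0 * b2 + a1 * b1 + a2 * b0) * y ^ 2 +
      (a0 * b3 + a1 * b2 + a2 * b1 + a3 * b0) * y ^ 3 +
      (a0 * b4 + a1 * b3 + a2 * b2 + a3 * b1 + a4 * b0) * y ^ 4 := by
  linear_combination (a1 * b4 + a2 * b3 + a3 * b2 + a4 * b1 +
    (a2 * b4 + a3 * b3 + a4 * b2) * y + (a3 * b4 + a4 * b3) * y ^ 2 + a4 * b4 * y ^ 3) * hy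

/-- The key expansion. -/
lemma key_expansion {x y g : R} (hy : y ^ 5 = 0) (hx : x * (1 + y) = 1) (n : ℕ) :
    576 * ((1 - g * ((1 + y) ^ (n + 1) - 1)) -
      (1 - g * (x ^ n - 1)) * (1 - g * y) ^ (2 * n + 1)) =
    -(96 * (n : R) * ((n : R) + 1) * (2 * (n : R) + 1)) * (g * (g + 1)) *
      ((2 * g + 1) * y ^ 3 +
        ((1 - 2 * (n : R)) * g ^ 2 - ((n : R) + 1) * g - 1) * y ^ 4) := by
  have hA := pow_one_add hy (n + 1)
  have hB := inv_pow_one_add hy hx n
  have hgy : (-(g * y)) ^ 5 = 0 := by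
    have : (-(g * y)) ^ 5 = -(g ^ 5 * y ^ 5) := by ring
    rw [this, hy]; ring
  have hC := pow_one_add hgy (2 * n + 1)
  rw [show (1 : R) + -(g * y) = 1 - g * y by ring] at hC
  push_cast at hA hB hC
  have hprod := mul_trunc hy (24 : R) (24 * g * (n : R)) (-(12 * g * (n : R) * ((n : R) + 1)))
    (4 * g * (n : R) * ((n : R) + 1) * ((n : R) + 2))
    (-(g * (n : R) * ((n : R) + 1) * ((n : R) + 2) * ((n : R) + 3)))
    (24 : R) (-(24 * (2 * (n : R) + 1) * g))
    (12 * (2 * (n : R) + 1) * ((2 * (n : R) + 1) - 1) * g ^ 2)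
    (-(4 * (2 * (n : R) + 1) * ((2 * (n : R) + 1) - 1) * ((2 * (n : R) + 1) - 2) * g ^ 3))
    ((2 * (n : R) + 1) * ((2 * (n : R) + 1) - 1) * ((2 * (n : R) + 1) - 2) *
      ((2 * (n : R) + 1) - 3) * g ^ 4)
  have hL : 24 * (1 - g * (x ^ n - 1)) = 24 + 24 * g * (n : R) * y +
      -(12 * g * (n : R) * ((n : R) + 1)) * y ^ 2 +
      4 * g * (n : R) * ((n : R) + 1) * ((n : R) + 2) * y ^ 3 +
      -(g * (n : R) * ((n : R) + 1) * ((n : R) + 2) * ((n : R) + 3)) * y ^ 4 := by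
    linear_combination (-g) * hB
  have hL2 : 24 * (1 - g * y) ^ (2 * n + 1) = 24 + -(24 * (2 * (n : R) + 1) * g) * y +
      12 * (2 * (n : R) + 1) * ((2 * (n : R) + 1) - 1) * g ^ 2 * y ^ 2 +
      -(4 * (2 * (n : R) + 1) * ((2 * (n : R) + 1) - 1) * ((2 * (n : R) + 1) - 2) * g ^ 3) * y ^ 3 +
      (2 * (n : R) + 1) * ((2 * (n : R) + 1) - 1) * ((2 * (n : R) + 1) - 2) *
      ((2 * (n : R) + 1) - 3) * g ^ 4 * y ^ 4 := by
    linear_combination hC
  rw [← hL, ← hL2] at hprod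
  linear_combination (-24 * g) * hA - hprod

/-- `y ^ 3 * x ^ k = y ^ 3 - k * y ^ 4`. -/
lemma y3_mul_xpow {x y : R} (hy : y ^ 5 = 0) (hx : x * (1 + y) = 1) (k : ℕ) :
    y ^ 3 * x ^ k = y ^ 3 - (k : R) * y ^ 4 := by
  induction k with
  | zero => simp
  | succ k ih =>
    have h1 : y ^ 3 * x = y ^ 3 - y ^ 4 := by
      linear_combination (y ^ 3 - y ^ 4) * hx + x * hy
    have h2 : y ^ 4 * x = y ^ 4 := by
      linear_combination y ^ 4 * hx - x * hy
    push_cast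
    rw [pow_succ]
    linear_combination x * ih + h1 - (k : R) * h2

lemma y4_mul_xpow {x y : R} (hy : y ^ 5 = 0) (hx : x * (1 + y) = 1) (k : ℕ) :
    y ^ 4 * x ^ k = y ^ 4 := by
  have := y3_mul_xpow hy hx k
  linear_combination y * this - (k : R) * hy

/-- `z (1 - z) ^ 2`-type closed forms. -/
lemma geom0 (z : R) (m : ℕ) : (1 - z) * ∑ k ∈ range m, z ^ k = 1 - z ^ m := by
  induction m with
  | zero => simp
  | succ m ih => rw [sum_range_succ, mul_add, ih, pow_succ]; ring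

lemma geom1 (z : R) (m : ℕ) :
    (1 - z) ^ 2 * ∑ k ∈ range m, (k : R) * z ^ k =
      z - (m : R) * z ^ m + ((m : R) - 1) * z ^ (m + 1) := by
  induction m with
  | zero => simp
  | succ m ih =>
    rw [sum_range_succ, mul_add, ih]
    push_cast
    ring

lemma geom2 (z : R) (m : ℕ) :
    (1 - z) ^ 3 * ∑ k ∈ range m, (k : R) ^ 2 * z ^ k =
      z + z ^ 2 - (m : R) ^ 2 * z ^ m + (2 * (m : R) ^ 2 - 2 * (m : R) - 1) * z ^ (m + 1) -
        ((m : R) - 1) ^ 2 * z ^ (m + 2) := by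
  induction m with
  | zero => simp
  | succ m ih =>
    rw [sum_range_succ, mul_add, ih]
    push_cast
    ring

/-- `(1 - z) ^ 3 ∑_{k < n} k (n - k) z ^ k = 2 n z (1 - z)` when `z ^ n` acts as `1` on `w`. -/
lemma geom_quad {w z : R} (n : ℕ) (h : w * z ^ n = w) :
    w * ((1 - z) ^ 3 * ∑ k ∈ range n, (k : R) * ((n : R) - (k : R)) * z ^ k) =
      w * (2 * (n : R) * z * (1 - z)) := by
  have h1 : ∑ k ∈ range n, (k : R) * ((n : R) - (k : R)) * z ^ k =
      (n : R) * ∑ k ∈ range n, (k : R) * z ^ k - ∑ k ∈ range n, (k : R) ^ 2 * z ^ k := by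
    rw [Finset.mul_sum, ← Finset.sum_sub_distrib]
    refine Finset.sum_congr rfl fun k _ => ?_
    ring
  have g1 := geom1 z n
  have g2 := geom2 z n
  rw [h1]
  have e1 : z ^ (n + 1) = z ^ n * z := pow_succ z n
  have e2 : z ^ (n + 2) = z ^ n * z ^ 2 := pow_add z n 2
  rw [e1] at g1
  rw [e1, e2] at g2
  linear_combination w * (n : R) * (1 - z) * g1 - w * g2 +
    ((n : R) * (1 - z) * (-(n : R) + ((n : R) - 1) * z) + (n : R) ^ 2 -
      (2 * (n : R) ^ 2 - 2 * (n : R) - 1) * z + ((n : R) - 1) ^ 2 * z ^ 2) * h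

/-- `∑_{k < n} k (n - k) = n (n ^ 2 - 1) / 6`. -/
lemma sum_quad (n : R) (m : ℕ) :
    6 * ∑ k ∈ range m, (k : R) * (n - (k : R)) =
      (m : R) * ((m : R) - 1) * (3 * n - 2 * (m : R) + 1) := by
  induction m with
  | zero => simp
  | succ m ih =>
    rw [sum_range_succ, mul_add, ih]
    push_cast
    ring

/-- The combinatorial rearrangement of the second order terms. -/
lemma second_order (g : ℕ → R) (n : R) (N : ℕ) :
    2 * ∑ j ∈ range N, (((1 - 2 * n) * g (j + 1) ^ 2 - (n + 1) * g (j + 1) - 1) -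
      (2 * g (j + 1) + 1) * (g (j + 1) + (2 * n + 2) * ∑ i ∈ range j, g (i + 1) +
        (n + 1) * ((j : R) + 1))) =
    2 * ∑ j ∈ range N, g (j + 1) * (g (j + 1) + 1) -
      (n + 3) * ∑ j ∈ range N, (2 * g (j + 1) + 1) -
      (n + 1) * (∑ j ∈ range N, (2 * g (j + 1) + 1)) ^ 2 := by
  induction N with
  | zero => simp
  | succ N ih =>
    rw [sum_range_succ, sum_range_succ, sum_range_succ, mul_add, ih]
    have h : ∑ j ∈ range N, (2 * g (j + 1) + 1) = 2 * ∑ j ∈ range N, g (j + 1) + (N : R) := by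
      rw [Finset.sum_add_distrib, ← Finset.mul_sum]
      simp
    rw [h]
    ring

end trunc

end Pool.Agent.Helper98.QSuper
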